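import Pool.Agent.H89.FrobD.Split

/-!
# Project AB, part (D), module M8: Frobenius density for relative extensions

* `frob_E`: primes `u` of degree one such that all primes above `u` have degree one, `p ≡ 2 (mod 3)`;
* `frob_F`: long orbits.
-/

set_option autoImplicit false
set_option linter.unusedSectionVars false

open scoped Pointwise NumberField
open MulAction Ideal Finset Filter NumberField IsDedekindDomain

namespace H89AB

open Pool.Agent.H71.FD Pool.Agent.H89.FrobD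

/-- passing from a set of Frobenius classes to the upper density -/
theorem upper_of_GP {L : Type} [Field L] [NumberField L] [IsGalois ℚ L] (g : Gal(L/ℚ)) {B : ℕ → Prop}
    (hB : Null B) (S : Set ℕ)
    (hS : ∀ p : ℕ, p.Prime → 3 < p → ¬ (p : ℤ) ∣ NumberField.discr L →
      (setE L (Subgroup.zpowers g) p).Nonempty → ¬ B p → p ∈ S) :
    UpperDensity S (1 / (Module.finrank ℚ L : ℝ)) := by
  intro ε hε x₀
  have hB' : Null (fun p => B p ∨ p ≤ 3) :=
    hB.or (Pool.Agent.H71.FD.Null_of_bounded 3 fun p _ hp => hp)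
  obtain ⟨x, hx, h⟩ := GP_count L (Subgroup.zpowers g) hB' ε hε (max x₀ 2)
  refine ⟨x, (le_max_left _ _).trans hx, ?_⟩
  have hx2 : 2 ≤ x := (le_max_right _ _).trans hx
  have hx1 : (1 : ℝ) < x := by exact_mod_cast hx2
  have hl : 0 < Real.log x := Real.log_pos hx1
  have hcard : Nat.card Gal(L/ℚ) = Module.finrank ℚ L := IsGalois.card_aut_eq_finrank ℚ L
  rw [hcard] at h
  have h0 : (1 / (Module.finrank ℚ L : ℝ) - ε) * (x / Real.log x) ≤
      ((gens L (Subgroup.zpowers g) : ℝ) / (Module.finrank ℚ L : ℝ) - ε) * (x / Real.log x) := by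
    refine mul_le_mul_of_nonneg_right ?_ (by positivity)
    have h1 : (1 : ℝ) ≤ (gens L (Subgroup.zpowers g) : ℝ) := by exact_mod_cast one_le_gens L g
    have h2 : (0 : ℝ) < (Module.finrank ℚ L : ℝ) := by exact_mod_cast Module.finrank_pos
    have h3 := div_le_div_of_nonneg_right h1 h2.le
    linarith
  refine h0.trans (h.trans ?_)
  rw [cn_eq_ncard]
  refine Nat.cast_le.2 (Set.ncard_le_ncard ?_ ?_)
  · rintro p ⟨hp, hpx, ⟨hd, hE⟩, hnot⟩
    push Not at hnot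
    exact ⟨hp, hpx, hS p hp hnot.2 hd hE hnot.1⟩
  · exact (Set.finite_Iic x).subset fun p hp => hp.2.1

section under

variable {L : Type} [Field L] [NumberField L] [IsGalois ℚ L]

/-- the group of a subfield -/
abbrev HK (K L : Type*) [Field K] [Field L] [NumberField L] [Algebra K L] : Subgroup Gal(L/ℚ) :=
  fixingSubgroup Gal(L/ℚ) (Set.range (algebraMap K L))

theorem mem_HK {K : Type*} [Field K] [Algebra K L] (τ : Gal(L/ℚ)) :
    τ ∈ HK K L ↔ ∀ x : K, τ (algebraMap K L x) = algebraMap K L x := by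
  rw [HK, mem_fixingSubgroup_iff]
  constructor
  · intro h x
    exact h _ ⟨x, rfl⟩
  · rintro h _ ⟨x, rfl⟩
    exact h x

theorem gal_HK (K : Type*) [Field K] [NumberField K] [Algebra K L] [IsScalarTower ℚ K L] :
    IsGaloisGroup (HK K L) (𝓞 K) (𝓞 L) := by
  have : IsGaloisGroup (HK K L) K L := IsGaloisGroup.of_isScalarTower Gal(L/ℚ) ℚ L K
  exact IsGaloisGroup.of_isFractionRing (HK K L) (𝓞 K) (𝓞 L) K L

theorem mem_under {K : Type*} [Field K] [NumberField K] [Algebra K L] {p : ℕ} {Q : Ideal (𝓞 L)}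
    (hQ : Q ∈ (pZ p).primesOver (𝓞 L)) : (p : 𝓞 K) ∈ Q.under (𝓞 K) := by
  rw [Ideal.under_def, Ideal.mem_comap, map_natCast]
  exact mem_of_over L hQ

theorem under_ne_bot {K : Type*} [Field K] [NumberField K] [Algebra K L] {p : ℕ} (hp : p.Prime)
    {Q : Ideal (𝓞 L)} (hQ : Q ∈ (pZ p).primesOver (𝓞 L)) : Q.under (𝓞 K) ≠ ⊥ := by
  intro h
  have hmem := mem_under (K := K) hQ
  rw [h, Ideal.mem_bot, Nat.cast_eq_zero] at hmem
  exact hp.ne_zero hmem

/-- the residue degree of the prime below -/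
theorem deg_under {K : Type*} [Field K] [NumberField K] [Algebra K L] [IsScalarTower ℚ K L]
    {p : ℕ} (hp : p.Prime) (hd : ¬ (p : ℤ) ∣ NumberField.discr L) (g : Gal(L/ℚ)) {Q : Ideal (𝓞 L)}
    (hQ : Q ∈ (pZ p).primesOver (𝓞 L)) (hQE : stabilizer Gal(L/ℚ) Q = Subgroup.zpowers g)
    (σ : K →ₐ[ℚ] L) (hσ : ∀ x : K, algebraMap K L x = σ x) :
    (Q.under (𝓞 K)).inertiaDeg ℤ = Function.minimalPeriod (act g) σ := by
  have hQp := hQ.1
  have hQl := hQ.2
  have hpZ := pZ_prime hp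
  have hH : ∀ τ : Gal(L/ℚ), τ ∈ HK K L ↔ ∀ x : K, τ (σ x) = σ x := by
    intro τ
    rw [mem_HK]
    simp only [hσ]
  have : IsGaloisGroup (HK K L) (𝓞 K) (𝓞 L) := gal_HK K
  have : (Q.under (𝓞 K)).LiesOver (pZ p) := Ideal.LiesOver.tower_bot Q (Q.under (𝓞 K)) (pZ p)
  have h1 := deg_mul (A := ℤ) (B := 𝓞 K) (C := 𝓞 L) (HK K L) (pZ p) Q (Q.under (𝓞 K)) (unram L hp hd Q hQ)
  rw [card_stab_inf, hQE] at h1
  have h2 := card_inf g σ (HK K L) hH
  have hpos : 0 < Nat.card (Subgroup.zpowers g ⊓ HK K L : Subgroup Gal(L/ℚ)) := Nat.card_pos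
  exact Nat.eq_of_mul_eq_mul_right hpos (h1.trans h2.symm)

/-- the residue degree of a prime `v` below `Q'` is one if the decomposition group fixes `K` -/
theorem deg_one_of_le {K : Type*} [Field K] [NumberField K] [Algebra K L] [IsScalarTower ℚ K L]
    {p : ℕ} (hp : p.Prime) (hd : ¬ (p : ℤ) ∣ NumberField.discr L) {Q : Ideal (𝓞 L)}
    (hQ : Q ∈ (pZ p).primesOver (𝓞 L)) (v : Ideal (𝓞 K)) [v.IsPrime] [Q.LiesOver v]
    (hle : stabilizer Gal(L/ℚ) Q ≤ HK K L) : v.inertiaDeg ℤ = 1 := by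
  have hQp := hQ.1
  have hQl := hQ.2
  have hpZ := pZ_prime hp
  have : IsGaloisGroup (HK K L) (𝓞 K) (𝓞 L) := gal_HK K
  exact (le_iff_deg_one (A := ℤ) (B := 𝓞 K) (C := 𝓞 L) (HK K L) (pZ p) Q v (unram L hp hd Q hQ)).1 hle

end under

theorem lies_over_pZ {K : Type*} [Field K] [NumberField K] {p : ℕ} (hp : p.Prime) (v : Ideal (𝓞 K))
    [v.IsPrime] (hv : (p : 𝓞 K) ∈ v) : v.LiesOver (pZ p) := by
  constructor
  refine (pZ_max hp).eq_of_le ?_ ?_
  · exact Ideal.IsPrime.ne_top inferInstance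
  · rw [Ideal.span_singleton_le_iff_mem, Ideal.under_def, Ideal.mem_comap]
    simpa using hv

theorem card_quot {K : Type*} [Field K] [NumberField K] {p : ℕ} (hp : p.Prime) (v : Ideal (𝓞 K))
    [v.IsPrime] (hv : (p : 𝓞 K) ∈ v) : Nat.card (𝓞 K ⧸ v) = p ^ v.inertiaDeg ℤ := by
  have := lies_over_pZ hp v hv
  rw [Ideal.pow_inertiaDeg p v]
  rfl

/-- cube roots of unity fixed by a power of the Frobenius -/
theorem pow_mod_three {L : Type} [Field L] [NumberField L] [IsGalois ℚ L]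
    {p : ℕ} (hp : p.Prime) (hp3 : 3 < p) (hd : ¬ (p : ℤ) ∣ NumberField.discr L) (g : Gal(L/ℚ))
    (hE : (setE L (Subgroup.zpowers g) p).Nonempty) (n : ℕ) (w : L) (hw : w ^ 2 + w + 1 = 0)
    (hgw : (g ^ n) w = w) : p ^ n % 3 = 1 := by
  have : Fact p.Prime := ⟨hp⟩
  obtain ⟨φ, τ, hτ, hφ⟩ := exists_frob L hd (AlgebraicClosure (ZMod p)) (Subgroup.zpowers g) hE
  have hint : IsIntegral ℤ w := by
    refine ⟨Polynomial.X ^ 2 + Polynomial.X + 1, ?_, ?_⟩
    · have : (Polynomial.X ^ 2 + Polynomial.X + 1 : Polynomial ℤ) =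
          Polynomial.X ^ 2 + (Polynomial.X + 1) := by ring
      rw [this]
      refine Polynomial.monic_X_pow_add ?_
      have h1 : (Polynomial.X + 1 : Polynomial ℤ).degree = 1 := by
        have := Polynomial.degree_X_add_C (1 : ℤ)
        simpa using this
      rw [h1]
      norm_num
    · simpa using hw
  set W : 𝓞 L := ⟨w, hint⟩ with hW
  have hWe : W ^ 2 + W + 1 = 0 := by
    apply NumberField.RingOfIntegers.ext
    push_cast
    exact hw
  have hfix : τ ^ n • W = W := by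
    have h1 : τ ∈ Subgroup.zpowers g := hτ ▸ Subgroup.mem_zpowers τ
    obtain ⟨k, hk⟩ := Subgroup.mem_zpowers_iff.1 h1
    have h2 : τ ^ n ∈ Subgroup.zpowers (g ^ n) := by
      rw [Subgroup.mem_zpowers_iff]
      refine ⟨k, ?_⟩
      rw [← hk, ← zpow_natCast, ← zpow_natCast, ← zpow_mul, ← zpow_mul, mul_comm]
    have h3 : Subgroup.zpowers (g ^ n) ≤ stabilizer Gal(L/ℚ) W := by
      rw [Subgroup.zpowers_le, MulAction.mem_stabilizer_iff]
      apply NumberField.RingOfIntegers.ext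
      exact hgw
    exact h3 h2
  have hpow : ∀ (k : ℕ) (x : 𝓞 L), φ (τ ^ k • x) = φ x ^ p ^ k := by
    intro k
    induction k with
    | zero => intro x; simp
    | succ k ih =>
      intro x
      have h5 : τ ^ (k + 1) • x = τ ^ k • (τ • x) := by rw [pow_succ, mul_smul]
      rw [h5, ih, hφ, ← pow_mul, ← pow_succ']
  have h3 := hpow n W
  rw [hfix] at h3
  have h4 : φ W ^ 2 + φ W + 1 = 0 := by
    have := congrArg φ hWe
    simpa using this
  have hne3 : (3 : AlgebraicClosure (ZMod p)) ≠ 0 := by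
    intro h
    have h5 : ((3 : ℕ) : AlgebraicClosure (ZMod p)) = 0 := by exact_mod_cast h
    rw [CharP.cast_eq_zero_iff (AlgebraicClosure (ZMod p)) p] at h5
    have := Nat.le_of_dvd (by norm_num) h5
    omega
  have hu3 : φ W ^ 3 = 1 := by
    have : φ W ^ 3 - 1 = (φ W - 1) * (φ W ^ 2 + φ W + 1) := by ring
    rw [h4, mul_zero] at this
    exact sub_eq_zero.1 this
  have hu1 : φ W ≠ 1 := by
    intro h
    rw [h] at h4
    exact hne3 (by linear_combination h4)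
  have hu0 : φ W ≠ 0 := by
    intro h
    rw [h] at h4
    simp at h4
  have h5 := Nat.div_add_mod (p ^ n) 3
  have h6 : φ W ^ p ^ n = φ W ^ (p ^ n % 3) := by
    have h7 : φ W ^ p ^ n = φ W ^ (3 * (p ^ n / 3) + p ^ n % 3) := congrArg (fun n => φ W ^ n) h5.symm
    rw [h7, pow_add, pow_mul, hu3, one_pow, one_mul]
  rw [h6] at h3
  have h7 : p ^ n % 3 < 3 := Nat.mod_lt _ (by norm_num)
  have h8 : p ^ n % 3 ≠ 0 := by
    intro h
    rw [h, pow_zero] at h3
    exact hu1 h3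
  have h9 : p ^ n % 3 ≠ 2 := by
    intro h
    rw [h] at h3
    have : φ W * (φ W - 1) = 0 := by linear_combination -h3
    rcases mul_eq_zero.1 this with h | h
    · exact hu0 h
    · exact hu1 (sub_eq_zero.1 h)
  omega

/-- M8a: primes `u` of degree one, all primes above of degree one, `p = 2` modulo `3` -/
theorem frob_E (F K : Type*) [Field F] [NumberField F] [Field K] [NumberField K] [Algebra F K]
    (L : Type) [Field L] [NumberField L] [IsGalois ℚ L] [Algebra F L] (hKL : Nonempty (K →ₐ[F] L))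
    (ω : L) (hω : ω ^ 2 + ω + 1 = 0) (hω' : ω ∉ IntermediateField.normalClosure F K L)
    {B : ℕ → Prop} (hB : Null B) :
    UpperDensity {p : ℕ | ¬ B p ∧ p % 3 = 2 ∧ ∃ u : HeightOneSpectrum (𝓞 F), (p : 𝓞 F) ∈ u.asIdeal ∧
      Nat.card (𝓞 F ⧸ u.asIdeal) = p ∧ ∀ v : HeightOneSpectrum (𝓞 K),
        v.asIdeal.LiesOver u.asIdeal → v.asIdeal.inertiaDeg (𝓞 F) = 1}
      (1 / (Module.finrank ℚ L : ℝ)) := by
  obtain ⟨σ⟩ := hKL
  have htF : IsScalarTower ℚ F L := inferInstance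
  set N := IntermediateField.normalClosure F K L with hN
  have hGN : IsGalois N L := IsGalois.tower_top_of_isGalois ℚ N L
  have hnot : ω ∉ (⊥ : IntermediateField N L) := by
    rw [IntermediateField.mem_bot]
    rintro ⟨x, hx⟩
    apply hω'
    rw [← hx]
    exact x.2
  rw [IsGalois.mem_bot_iff_fixed] at hnot
  push Not at hnot
  obtain ⟨g', hg'⟩ := hnot
  set g : Gal(L/ℚ) := g'.restrictScalars ℚ with hg
  have hgω : g ω ≠ ω := hg'
  have hgN : ∀ y ∈ N, g y = y := fun y hy => g'.commutes ⟨y, hy⟩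
  refine upper_of_GP g hB _ fun p hp hp3 hd hE hnB => ?_
  refine ⟨hnB, mod_three' hp hp3 hd g hE ω hω hgω, ?_⟩
  obtain ⟨Q, hQ, hQE⟩ := hE
  have hQp := hQ.1
  have hQl := hQ.2
  have hfixN : ∀ ρ ∈ Subgroup.zpowers g, ∀ y ∈ N, ρ y = y := by
    intro ρ hρ y hy
    have h1 : Subgroup.zpowers g ≤ stabilizer Gal(L/ℚ) y := by
      rw [Subgroup.zpowers_le, MulAction.mem_stabilizer_iff]
      exact hgN y hy
    have h2 := h1 hρ
    rw [MulAction.mem_stabilizer_iff] at h2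
    exact h2
  -- the prime `u`
  have hupr : (Q.under (𝓞 F)).IsPrime := inferInstance
  have hdegu : (Q.under (𝓞 F)).inertiaDeg ℤ = 1 := by
    refine deg_one_of_le hp hd hQ (Q.under (𝓞 F)) ?_
    rw [hQE]
    intro ρ hρ
    rw [mem_HK]
    intro x
    exact hfixN ρ hρ _ (N.algebraMap_mem x)
  refine ⟨⟨Q.under (𝓞 F), hupr, under_ne_bot hp hQ⟩, mem_under hQ, ?_, ?_⟩
  · rw [card_quot hp (Q.under (𝓞 F)) (mem_under hQ), hdegu, pow_one]
  · intro v hv
    have hvp := v.isPrime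
    have hv' : v.asIdeal.LiesOver (Q.under (𝓞 F)) := hv
    let _ : Algebra K L := σ.toRingHom.toAlgebra
    have hmap : ∀ x : K, algebraMap K L x = σ x := fun x => rfl
    have htower : IsScalarTower F K L := IsScalarTower.of_algebraMap_eq fun x => (σ.commutes x).symm
    have htK : IsScalarTower ℚ K L := inferInstance
    obtain ⟨Q', hQ', hQ'v⟩ := (inferInstance : Nonempty (v.asIdeal.primesOver (𝓞 L)))
    have hQ'u : Q'.LiesOver (Q.under (𝓞 F)) := Ideal.LiesOver.trans Q' v.asIdeal (Q.under (𝓞 F))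
    have hvmem : (p : 𝓞 K) ∈ v.asIdeal := by
      have h1 : (p : 𝓞 F) ∈ v.asIdeal.under (𝓞 F) := by
        rw [← hv'.over]
        exact mem_under hQ
      rw [Ideal.under_def, Ideal.mem_comap, map_natCast] at h1
      exact h1
    have hvl := lies_over_pZ hp v.asIdeal hvmem
    have hQ'l : Q'.LiesOver (pZ p) := Ideal.LiesOver.trans Q' v.asIdeal (pZ p)
    have hGF : IsGaloisGroup (HK F L) (𝓞 F) (𝓞 L) := gal_HK F
    have horb : MulAction.orbit (HK F L) Q = (Q.under (𝓞 F)).primesOver (𝓞 L) :=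
      Algebra.IsInvariant.orbit_eq_primesOver (𝓞 F) (𝓞 L) (HK F L) (Q.under (𝓞 F)) Q
    have hQ'm : Q' ∈ (Q.under (𝓞 F)).primesOver (𝓞 L) := ⟨hQ', hQ'u⟩
    rw [← horb] at hQ'm
    obtain ⟨τ, hτ⟩ := hQ'm
    have hτ' : (τ : Gal(L/ℚ)) • Q = Q' := hτ
    have hτF : ∀ x : F, (τ : Gal(L/ℚ))⁻¹ (algebraMap F L x) = algebraMap F L x := by
      have h1 := (HK F L).inv_mem τ.2
      rw [mem_HK] at h1
      exact h1
    have h1 : v.asIdeal.inertiaDeg ℤ = 1 := by
      refine deg_one_of_le hp hd (Q := Q') ⟨hQ', hQ'l⟩ v.asIdeal ?_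
      rw [← hτ', stabilizer_smul_eq_stabilizer_map_conj, hQE]
      intro ρ hρ
      obtain ⟨ρ', hρ', rfl⟩ := Subgroup.mem_map.1 hρ
      rw [mem_HK]
      intro x
      show (τ : Gal(L/ℚ)) (ρ' ((τ : Gal(L/ℚ))⁻¹ (algebraMap K L x))) = algebraMap K L x
      rw [hmap]
      -- `τ⁻¹ σ` is an `F`-embedding
      let σ' : K →ₐ[F] L :=
        { toRingHom := (((τ : Gal(L/ℚ))⁻¹ : Gal(L/ℚ)) : L →+* L).comp (σ : K →+* L)
          commutes' := fun y => by
            show (τ : Gal(L/ℚ))⁻¹ (σ (algebraMap F K y)) = algebraMap F L y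
            rw [σ.commutes]
            exact hτF y }
      have h2 : (τ : Gal(L/ℚ))⁻¹ (σ x) ∈ N :=
        AlgHom.fieldRange_le_normalClosure σ' ⟨x, rfl⟩
      rw [hfixN ρ' hρ' _ h2]
      have h3 : ((τ : Gal(L/ℚ)) * (τ : Gal(L/ℚ))⁻¹) (σ x) = σ x := by
        rw [mul_inv_cancel]
        rfl
      exact h3
    have h2 : v.asIdeal.inertiaDeg ℤ = (Q.under (𝓞 F)).inertiaDeg ℤ * v.asIdeal.inertiaDeg (𝓞 F) :=
      Ideal.inertiaDeg_tower (R := ℤ) (Q.under (𝓞 F)) v.asIdeal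
    rw [h1, hdegu, one_mul] at h2
    exact h2.symm

/-- M8b: long orbits -/
theorem frob_F (F K : Type*) [Field F] [NumberField F] [Field K] [NumberField K] [Algebra F K]
    (L : Type) [Field L] [NumberField L] [IsGalois ℚ L] (g : Gal(L/ℚ)) (σ : K →ₐ[ℚ] L)
    (σ₀ : F →ₐ[ℚ] L) (hσ : ∀ x : F, σ (algebraMap F K x) = σ₀ x) (m m₀ : ℕ)
    (hm : m = Function.minimalPeriod (fun τ : K →ₐ[ℚ] L => (g : L →ₐ[ℚ] L).comp τ) σ)
    (hm₀ : m₀ = Function.minimalPeriod (fun τ : F →ₐ[ℚ] L => (g : L →ₐ[ℚ] L).comp τ) σ₀)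
    {B : ℕ → Prop} (hB : Null B) :
    UpperDensity {p : ℕ | ¬ B p ∧ ∃ (u : HeightOneSpectrum (𝓞 F)) (v : HeightOneSpectrum (𝓞 K)),
      (p : 𝓞 F) ∈ u.asIdeal ∧ v.asIdeal.LiesOver u.asIdeal ∧
      m₀ * v.asIdeal.inertiaDeg (𝓞 F) = m ∧
      ∀ ω : L, ω ^ 2 + ω + 1 = 0 → (g ^ m₀) ω = ω → Nat.card (𝓞 F ⧸ u.asIdeal) % 3 = 1}
      (1 / (Module.finrank ℚ L : ℝ)) := by
  refine upper_of_GP g hB _ fun p hp hp3 hd hE hnB => ⟨hnB, ?_⟩
  have hE' := hE
  obtain ⟨Q, hQ, hQE⟩ := hE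
  have hQp := hQ.1
  have hQl := hQ.2
  let _ : Algebra K L := σ.toRingHom.toAlgebra
  let _ : Algebra F L := σ₀.toRingHom.toAlgebra
  have hmK : ∀ x : K, algebraMap K L x = σ x := fun x => rfl
  have hmF : ∀ x : F, algebraMap F L x = σ₀ x := fun x => rfl
  have htower : IsScalarTower F K L := IsScalarTower.of_algebraMap_eq fun x => (hσ x).symm
  have htK : IsScalarTower ℚ K L := inferInstance
  have htF : IsScalarTower ℚ F L := inferInstance
  have hdv : (Q.under (𝓞 K)).inertiaDeg ℤ = m := by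
    rw [hm]
    exact deg_under hp hd g hQ hQE σ hmK
  have hdu : (Q.under (𝓞 F)).inertiaDeg ℤ = m₀ := by
    rw [hm₀]
    exact deg_under hp hd g hQ hQE σ₀ hmF
  have hlie : (Q.under (𝓞 K)).LiesOver (Q.under (𝓞 F)) := by
    constructor
    rw [Ideal.under_under]
  refine ⟨⟨Q.under (𝓞 F), inferInstance, under_ne_bot hp hQ⟩,
    ⟨Q.under (𝓞 K), inferInstance, under_ne_bot hp hQ⟩, mem_under hQ, hlie, ?_, ?_⟩
  · have h2 : (Q.under (𝓞 K)).inertiaDeg ℤ =
        (Q.under (𝓞 F)).inertiaDeg ℤ * (Q.under (𝓞 K)).inertiaDeg (𝓞 F) :=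
      Ideal.inertiaDeg_tower (R := ℤ) (Q.under (𝓞 F)) (Q.under (𝓞 K))
    rw [hdv, hdu] at h2
    exact h2.symm
  · intro ω hω hgω
    show Nat.card (𝓞 F ⧸ Q.under (𝓞 F)) % 3 = 1
    rw [card_quot hp (Q.under (𝓞 F)) (mem_under hQ), hdu]
    exact pow_mod_three hp hp3 hd g hE' m₀ ω hω hgω

end H89AB
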